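import Mathlib
import Pool.Agent.Lib_MP_2d36f7_ag.FinalDefs
import Pool.Agent.Lib_MP_2d36f7_ag.Manifold
import Pool.Agent.Lib_MP_2d36f7_ag.Main

/-!
# Splittability of holomorphic compositions through low dimensional manifolds

Let `k > 4`, `n ≥ 3` and let `X` be a complex manifold of dimension `l ≤ k - 2` (for instance an
affine algebraic manifold). For all holomorphic maps `f₁` from `G_k^0` to `X` and `f₂` from `X` to
`G_n^0` the composition of `f₁` and `f₂` is splittable.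

Here `G0 n` is the space `G_n^0` in the coordinates given by the coefficients of
`1, λ, …, λ^(n-2)`, an open subset of `ℂ^(n-1)`, and `disc n` is the discriminant.
-/

open Complex Set Filter Topology
open scoped Manifold ContDiff

namespace Pool.Agent.Results.MP_2d36f7_ag.LowDimSplit

open MP2d36f7

/-- A continuous map `f` from `G_k^0` to `G_n^0` is splittable if it is homotopic to the
composition of the discriminant, as a continuous map `D` from `G_k^0` to `ℂ \ {0}`, and a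
continuous map `h` from `ℂ \ {0}` to `G_n^0`. -/
def Splittable {k n : ℕ} (f : C(G0 k, G0 n)) : Prop :=
  ∃ (D : C(G0 k, {c : ℂ // c ≠ 0})) (h : C({c : ℂ // c ≠ 0}, G0 n)),
    (∀ z : G0 k, (D z : ℂ) = disc k z) ∧ f.Homotopic (h.comp D)

/-- For `k > 4`, `n ≥ 3` and every complex manifold `X` of dimension `l ≤ k - 2`, every
composition of holomorphic maps from `G_k^0` to `X` and from `X` to `G_n^0` is splittable. -/
theorem result {k n l : ℕ} (hk : 4 < k) (hn : 3 ≤ n) (hl : l + 2 ≤ k)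
    {X : Type*} [TopologicalSpace X] [ChartedSpace (Fin l → ℂ) X]
    [IsManifold 𝓘(ℂ, Fin l → ℂ) ω X]
    (f₁ : (Fin (k - 1) → ℂ) → X)
    (hf₁ : MDifferentiableOn 𝓘(ℂ, Fin (k - 1) → ℂ) 𝓘(ℂ, Fin l → ℂ) f₁ (G0 k))
    (f₂ : X → (Fin (n - 1) → ℂ))
    (hf₂ : MDifferentiable 𝓘(ℂ, Fin l → ℂ) 𝓘(ℂ, Fin (n - 1) → ℂ) f₂)
    (hm : ∀ x, f₂ x ∈ G0 n) :
    ∃ f : C(G0 k, G0 n), (∀ z : G0 k, (f z : Fin (n - 1) → ℂ) = f₂ (f₁ z)) ∧
      Splittable f := by
  obtain ⟨hd, hr⟩ := rank_of_factor (n := n) (isOpen_G0 k) hf₁ hf₂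
  have hc : Continuous fun z : G0 k => (⟨f₂ (f₁ z), hm _⟩ : G0 n) :=
    Continuous.subtype_mk (hd.continuousOn.comp_continuous continuous_subtype_val
      fun z => z.2) _
  refine ⟨⟨_, hc⟩, fun z => rfl, ?_⟩
  obtain ⟨h, hh⟩ := splittable_of_rank (by omega) hn hd (fun z _ => hm _)
    (fun z hz => le_trans (Nat.add_le_add_right (hr z hz) 2) hl) ⟨_, hc⟩ (fun z => rfl)
  exact ⟨discMap k, h, fun z => rfl, hh⟩

end Pool.Agent.Results.MP_2d36f7_ag.LowDimSplit
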